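import Mathlib
import Pool.Agent.Q14.CVLim

set_option autoImplicit false

/-! # The variance of the coprime count in a random lattice square -/

namespace Pool.Agent.Results.MP_143e3a_nt.VarianceBound

open Filter Topology

/-- The limits `p_M(r)` exist, and the variance of the limit distribution is at most
`(3/2) M²`, for every `M`. -/
theorem result : (∀ M r : ℕ, Tendsto (Pool.Agent.Q14.CV.freq M r) atTop
      (𝓝 (Pool.Agent.Q14.CV.p M r))) ∧
    ∀ M : ℕ, Pool.Agent.Q14.CV.variance M ≤ 3 / 2 * (M : ℝ) ^ 2 :=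
  ⟨Pool.Agent.Q14.CV.tendsto_freq, Pool.Agent.Q14.CV.variance_le⟩

end Pool.Agent.Results.MP_143e3a_nt.VarianceBound
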